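import Mathlib
import Pool.Agent.H82.GrothDefs

set_option autoImplicit false

namespace Pool.Agent.Results.MP_0f8365_gt.ProductCountable

open Set Filter Topology Pool.Agent.H82.GrothDefs

lemma relcc_image {Z W : Type} [TopologicalSpace Z] [TopologicalSpace W] [T1Space Z] [T1Space W]
    {A : Set Z} (hA : RelCC A) {h : Z → W} (hh : Continuous h) : RelCC (h '' A) := by
  intro B hB hinf
  have : Nonempty Z := by
    obtain ⟨b, hb⟩ := hinf.nonempty
    obtain ⟨z, -, -⟩ := hB hb
    exact ⟨z⟩
  choose! g hgA hg using fun b (hb : b ∈ B) => hB hb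
  have hinj : InjOn g B := fun a ha b hb e => by rw [← hg a ha, ← hg b hb, e]
  obtain ⟨z, hz⟩ := hA (g '' B) (by rintro _ ⟨b, hb, rfl⟩; exact hgA b hb) (hinf.image hinj)
  refine ⟨h z, accPt_iff_nhds.2 fun U hU => ?_⟩
  have h1 : (h ⁻¹' U ∩ g '' B).Infinite :=
    Set.Infinite.of_accPt (hz.nhds_inter (hh.continuousAt.preimage_mem_nhds hU))
  have h2 : (U ∩ B).Infinite := by
    refine Infinite.of_image g (h1.mono ?_)
    rintro _ ⟨hu, b, hb, rfl⟩
    exact ⟨b, ⟨by rwa [mem_preimage, hg b hb] at hu, hb⟩, rfl⟩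
  obtain ⟨y, hy, hne⟩ := h2.exists_notMem_finite (finite_singleton (h z))
  exact ⟨y, hy, hne⟩

theorem result : ∀ (X Y : Type) [TopologicalSpace X] [TopologicalSpace Y] [T35Space X]
    [T35Space Y] [Countable Y], Grothendieck X → Grothendieck (X × Y) := by
  intro X Y _ _ _ _ _ hX S A hA
  let π : Y → S → (univ : Set {f : X → ℝ // Continuous f}) := fun y s =>
    ⟨⟨fun x => s.1.1 (x, y), s.1.2.comp (by fun_prop)⟩, trivial⟩
  have hπ : ∀ y, Continuous (π y) := fun y =>
    by
      have h0 : Continuous fun (s : S) (x : X) => s.1.1 (x, y) := continuous_pi fun x =>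
        (continuous_apply (x, y)).comp (continuous_subtype_val.comp continuous_subtype_val)
      exact Continuous.subtype_mk (Continuous.subtype_mk h0 _) _
  let K : Y → Set (X → ℝ) := fun y => (fun u => u.1.1) '' closure (π y '' A)
  have hK : ∀ y, IsCompact (K y) := fun y =>
    (hX univ _ (relcc_image hA (hπ y))).image (by fun_prop)
  let v : S → (X × Y → ℝ) := fun s => s.1.1
  have hv : IsInducing v := IsInducing.subtypeVal.comp IsInducing.subtypeVal
  let c : (X × Y → ℝ) → Y → X → ℝ := fun f y x => f (x, y)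
  have hc : Continuous c := by fun_prop
  have hsub : v '' A ⊆ c ⁻¹' univ.pi K := by
    rintro _ ⟨s, hs, rfl⟩ y -
    exact ⟨π y s, subset_closure ⟨s, hs, rfl⟩, rfl⟩
  have hP : IsCompact (c ⁻¹' univ.pi K) := by
    have : c ⁻¹' univ.pi K = (fun (g : Y → X → ℝ) (p : X × Y) => g p.2 p.1) '' univ.pi K := by
      ext f
      exact ⟨fun h => ⟨c f, h, rfl⟩, by rintro ⟨g, hg, rfl⟩; exact hg⟩
    rw [this]
    exact (isCompact_univ_pi hK).image (by fun_prop)
  have hcl : closure (v '' A) ⊆ range v := by
    intro p hp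
    by_contra hpS
    have hpc : ∀ y, Continuous fun x => p (x, y) := fun y => by
      obtain ⟨u, -, hu⟩ := closure_minimal hsub hP.isClosed hp y trivial
      have : (fun x => p (x, y)) = u.1.1 := hu.symm
      rw [this]; exact u.1.2
    obtain ⟨e, he⟩ := exists_injective_nat Y
    have hsum : Summable fun y => (1 / 2 : ℝ) ^ e y := summable_geometric_two.comp_injective he
    let t : (X × Y → ℝ) → X → Y → ℝ := fun f x y => (1 / 2 : ℝ) ^ e y * min 1 |f (x, y) - p (x, y)|
    have ht0 : ∀ f x y, 0 ≤ t f x y := fun f x y => by simp only [t]; positivity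
    have htb : ∀ f x y, ‖t f x y‖ ≤ (1 / 2 : ℝ) ^ e y := fun f x y => by
      rw [Real.norm_of_nonneg (ht0 f x y)]
      exact mul_le_of_le_one_right (by positivity) (min_le_left _ _)
    let H : (X × Y → ℝ) → X → ℝ := fun f x => ∑' y, t f x y
    have hH : Continuous H := continuous_pi fun x =>
      continuous_tsum (fun y => by simp only [t]; fun_prop) hsum fun y f => htb f x y
    have hH2 : ∀ s : S, Continuous (H (v s)) := fun s =>
      continuous_tsum (fun y => continuous_const.mul (continuous_const.min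
        ((s.1.2.comp (by fun_prop)).sub (hpc y)).abs)) hsum fun y x => htb _ x y
    have hH0 : ∀ f, H f = 0 → f = p := by
      intro f hf
      ext ⟨x, y⟩
      have h1 : t f x y ≤ H f x :=
        (Summable.of_norm_bounded hsum (htb f x)).le_tsum y fun j _ => ht0 f x j
      rw [hf] at h1
      have h2 : min 1 |f (x, y) - p (x, y)| ≤ 0 := by
        by_contra h
        have : 0 < t f x y := mul_pos (by positivity) (not_le.1 h)
        exact absurd h1 (not_le.2 this)
      rcases min_le_iff.1 h2 with h | h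
      · norm_num at h
      · exact sub_eq_zero.1 (abs_nonpos_iff.1 h)
    let T : Set {f : X → ℝ // Continuous f} := {g | g.1 ≠ 0}
    let h : S → T := fun s => ⟨⟨H (v s), hH2 s⟩, fun h0 => hpS ⟨s, hH0 _ h0⟩⟩
    have hh : Continuous h :=
      Continuous.subtype_mk (Continuous.subtype_mk (hH.comp hv.continuous) _) _
    have hC := ((hX T _ (relcc_image hA hh)).image
      (show Continuous fun u : T => u.1.1 by fun_prop)).isClosed
    have : H p ∈ (fun u : T => u.1.1) '' closure (h '' A) := by
      refine closure_minimal ?_ hC (map_mem_closure hH hp fun _ hf => mem_image_of_mem H hf)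
      rintro _ ⟨_, ⟨s, hs, rfl⟩, rfl⟩
      exact ⟨h s, subset_closure ⟨s, hs, rfl⟩, rfl⟩
    obtain ⟨u, -, hu⟩ := this
    refine u.2 (hu.trans ?_)
    ext x
    simp [H, t]
  rw [hv.isCompact_iff, hv.closure_eq_preimage_closure_image, image_preimage_eq_of_subset hcl]
  exact hP.of_isClosed_subset isClosed_closure (closure_minimal hsub hP.isClosed)

end Pool.Agent.Results.MP_0f8365_gt.ProductCountable
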